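import Mathlib

/-!
# Two-convex simply connected open sets can have non simply connected planar sections
-/

namespace Pool.Agent.Results.MP_a4ef96_gt.PlanarSections

open Finset

/-- An open set (or any set) `Ω ⊆ ℝⁿ` is two-convex: for every tetrahedron (given by its four
affinely independent vertices `v`) such that three of its four faces lie in `Ω`, the whole solid
tetrahedron lies in `Ω`.  The face opposite to the vertex `v j` is the convex hull of the other
three vertices; `i` is the index of the face which is not required to lie in `Ω`. -/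
def TwoConvex {n : ℕ} (Ω : Set (EuclideanSpace ℝ (Fin n))) : Prop :=
  ∀ v : Fin 4 → EuclideanSpace ℝ (Fin n), AffineIndependent ℝ v →
    ∀ i : Fin 4, (∀ j : Fin 4, j ≠ i → convexHull ℝ (v '' {k | k ≠ j}) ⊆ Ω) →
      convexHull ℝ (Set.range v) ⊆ Ω

section Hull

variable {E : Type*} [AddCommGroup E] [Module ℝ E]

lemma mem_hull (v : Fin 4 → E) (p : E) (hp : p ∈ convexHull ℝ (Set.range v)) :
    ∃ w : Fin 4 → ℝ, (∀ i, 0 ≤ w i) ∧ ∑ i, w i = 1 ∧ ∑ i, w i • v i = p := by
  classical
  have h1 : Set.range v = (Fintype.linearCombination ℝ v) '' 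
      (Set.range fun i : Fin 4 => (Pi.single i (1:ℝ) : Fin 4 → ℝ)) := by
    ext x
    simp only [Set.mem_range, Set.mem_image, exists_exists_eq_and]
    constructor
    · rintro ⟨i, rfl⟩
      exact ⟨i, by simp⟩
    · rintro ⟨i, rfl⟩
      exact ⟨i, by simp⟩
  rw [h1, ← LinearMap.image_convexHull, convexHull_rangle_single_eq_stdSimplex] at hp
  obtain ⟨w, hw, rfl⟩ := hp
  exact ⟨w, hw.1, hw.2, by simp [Fintype.linearCombination_apply]⟩

lemma face_mem (v : Fin 4 → E) (w : Fin 4 → ℝ) (hw : ∀ i, 0 ≤ w i) (hs : ∑ i, w i = 1)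
    (j : Fin 4) (hj : w j = 0) : ∑ i, w i • v i ∈ convexHull ℝ (v '' {k | k ≠ j}) := by
  classical
  have e1 : ∑ i, w i • v i = ∑ i ∈ univ.erase j, w i • v i := by
    rw [← Finset.add_sum_erase _ _ (mem_univ j)]
    simp [hj]
  have e2 : ∑ i ∈ univ.erase j, w i = 1 := by
    rw [← Finset.add_sum_erase _ _ (mem_univ j)] at hs
    simpa [hj] using hs
  rw [e1]
  refine (convex_convexHull ℝ _).sum_mem (fun i _ => hw i) e2 ?_
  intro i hi
  apply subset_convexHull
  exact ⟨i, by simpa using (Finset.mem_erase.mp hi).1, rfl⟩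

/-- the key elementary fact about hyperplane sections of a simplex -/
lemma wall (a b : Fin 4 → ℝ)
    (h : ∀ i j : Fin 4, ∀ s : ℝ, 0 ≤ s → s ≤ 1 → (1 - s) * a i + s * a j = 0 →
      (1 - s) * b i + s * b j < 0)
    (w : Fin 4 → ℝ) (hw : ∀ i, 0 ≤ w i) (hs : ∑ i, w i = 1) (h0 : ∑ i, w i * a i = 0) :
    ∑ i, w i * b i < 0 := by
  classical
  obtain ⟨c, hc1, hc2⟩ := Order.exists_between_finsets
    ((univ.filter fun i => 0 < a i).image fun i => b i / a i)
    ((univ.filter fun i => a i < 0).image fun i => b i / a i) (by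
      intro x hx y hy
      simp only [mem_image, mem_filter, mem_univ, true_and] at hx hy
      obtain ⟨i, hi, rfl⟩ := hx
      obtain ⟨j, hj, rfl⟩ := hy
      have hd : 0 < a i - a j := by linarith
      have := h i j (a i / (a i - a j)) (by positivity) (by rw [div_le_one hd]; linarith) (by
        field_simp; ring)
      have h2 : a i * b j - a j * b i < 0 := by
        have h3 : (a i - a j) * ((1 - a i / (a i - a j)) * b i + a i / (a i - a j) * b j)
            = a i * b j - a j * b i := by field_simp; ring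
        rw [← h3]
        exact mul_neg_of_pos_of_neg hd this
      rw [div_lt_iff₀ hi, div_mul_eq_mul_div, lt_div_iff_of_neg hj]
      nlinarith)
  have hlt : ∀ i, b i < c * a i := by
    intro i
    rcases lt_trichotomy (a i) 0 with ha | ha | ha
    · have := hc2 (b i / a i) (by
        simp only [mem_image, mem_filter, mem_univ, true_and]; exact ⟨i, ha, rfl⟩)
      rw [lt_div_iff_of_neg ha] at this
      exact this
    · have := h i i 0 le_rfl zero_le_one (by rw [ha]; ring)
      rw [ha]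
      linarith
    · have := hc1 (b i / a i) (by
        simp only [mem_image, mem_filter, mem_univ, true_and]; exact ⟨i, ha, rfl⟩)
      rw [div_lt_iff₀ ha] at this
      exact this
  have hex : ∃ i, 0 < w i := by
    by_contra hcon
    push Not at hcon
    have : ∑ i, w i ≤ 0 := Finset.sum_nonpos fun i _ => hcon i
    linarith
  obtain ⟨i0, hi0⟩ := hex
  have : ∑ i, w i * b i < ∑ i, w i * (c * a i) :=
    Finset.sum_lt_sum (fun i _ => mul_le_mul_of_nonneg_left (hlt i).le (hw i))
      ⟨i0, mem_univ _, mul_lt_mul_of_pos_left (hlt i0) hi0⟩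
  have e : ∑ i, w i * (c * a i) = c * ∑ i, w i * a i := by
    rw [Finset.mul_sum]; apply Finset.sum_congr rfl; intro i _; ring
  rw [e, h0, mul_zero] at this
  exact this

/-- a nonzero direction in the plane of the barycentric coordinates -/
lemma direction (a b : Fin 4 → ℝ) (i0 : Fin 4) :
    ∃ m : Fin 4 → ℝ, 0 ≤ m i0 ∧ (∃ i, m i < 0) ∧ ∑ i, m i = 0 ∧ ∑ i, m i * a i = 0 ∧
      ∑ i, m i * b i = 0 := by
  classical
  let f : (Fin 4 → ℝ) →ₗ[ℝ] (Fin 3 → ℝ) :=
    LinearMap.pi ![∑ i, LinearMap.proj i, ∑ i, a i • LinearMap.proj i, ∑ i, b i • LinearMap.proj i]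
  have hk : LinearMap.ker f ≠ ⊥ := by
    apply LinearMap.ker_ne_bot_of_finrank_lt
    simp
  obtain ⟨m, hm, hm0⟩ := Submodule.exists_mem_ne_zero_of_ne_bot hk
  have hm1 : f m = 0 := hm
  have k1 : ∑ i, m i = 0 := by
    have := congrFun hm1 0
    simpa [f] using this
  have k2 : ∑ i, m i * a i = 0 := by
    have := congrFun hm1 1
    simpa [f, mul_comm] using this
  have k3 : ∑ i, m i * b i = 0 := by
    have := congrFun hm1 2
    simpa [f, mul_comm] using this
  have key : ∀ m : Fin 4 → ℝ, m ≠ 0 → ∑ i, m i = 0 → ∃ i, m i < 0 := by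
    intro m hm hs
    by_contra hcon
    push Not at hcon
    apply hm
    funext i
    exact (Finset.sum_eq_zero_iff_of_nonneg (fun i _ => hcon i)).mp hs i (mem_univ i)
  rcases le_total 0 (m i0) with h | h
  · exact ⟨m, h, key m hm0 k1, k1, k2, k3⟩
  · refine ⟨fun i => - m i, by simpa using h, ?_, by simp [k1], by simp [k2], by simp [k3]⟩
    apply key
    · intro hc
      apply hm0
      funext i
      have := congrFun hc i
      simpa using this
    · simp [k1]

/-- moving along a direction until one leaves the simplex through a face not opposite to `i0` -/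
lemma move (w m : Fin 4 → ℝ) (i0 : Fin 4) (hw : ∀ i, 0 ≤ w i) (hm0 : 0 ≤ m i0)
    (hm : ∃ i, m i < 0) : ∃ t : ℝ, 0 ≤ t ∧ (∀ i, 0 ≤ w i + t * m i) ∧
      ∃ j, j ≠ i0 ∧ w j + t * m j = 0 := by
  classical
  obtain ⟨j, hj, hmin⟩ := Finset.exists_min_image (univ.filter fun i => m i < 0)
    (fun i => w i / (- m i)) (by
      obtain ⟨i, hi⟩ := hm
      exact ⟨i, by simpa using hi⟩)
  have hj' : m j < 0 := by simpa using hj
  have hneg : 0 < - m j := by linarith
  refine ⟨w j / (- m j), div_nonneg (hw j) hneg.le, ?_, j, ?_, ?_⟩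
  · intro i
    rcases lt_or_ge (m i) 0 with hi | hi
    · have := hmin i (by simpa using hi)
      rw [le_div_iff₀ (by linarith)] at this
      linarith
    · have := mul_nonneg (div_nonneg (hw j) hneg.le) hi
      linarith [hw i]
  · rintro rfl
    linarith
  · have : m j ≠ 0 := hj'.ne
    field_simp
    ring

end Hull

section Example

variable {n : ℕ}

/-- The example: in the coordinates `(x₁, x₂, x₃, y₁, y₂)` given by `e`. -/
def Om (e : Fin 5 ↪ Fin n) : Set (EuclideanSpace ℝ (Fin n)) :=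
  {x | (x (e 0) = 0 → x (e 3) < 0) ∧ (x (e 1) = 0 → x (e 4) < 0) ∧
    (x (e 2) = 0 → 0 < x (e 3) + x (e 4)) ∧ (x (e 0) = 0 → x (e 1) = 0 → x (e 2) < 0)}

lemma isOpen_Om (e : Fin 5 ↪ Fin n) : IsOpen (Om e) := by
  have h : Om e = ({x | x (e 0) ≠ 0} ∪ {x | x (e 3) < 0}) ∩
      (({x | x (e 1) ≠ 0} ∪ {x | x (e 4) < 0}) ∩
      (({x | x (e 2) ≠ 0} ∪ {x | 0 < x (e 3) + x (e 4)}) ∩
      ({x | x (e 0) ≠ 0} ∪ ({x | x (e 1) ≠ 0} ∪ {x | x (e 2) < 0})))) := by
    ext x
    simp only [Om, Set.mem_ofPred_eq, Set.mem_inter_iff, Set.mem_union]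
    tauto
  rw [h]
  have hc : ∀ i : Fin n, Continuous fun x : EuclideanSpace ℝ (Fin n) => x i := fun i => by fun_prop
  have hne : ∀ i : Fin n, IsOpen {x : EuclideanSpace ℝ (Fin n) | x i ≠ 0} := fun i =>
    isOpen_ne_fun (hc i) continuous_const
  have hlt : ∀ i : Fin n, IsOpen {x : EuclideanSpace ℝ (Fin n) | x i < 0} := fun i =>
    isOpen_lt (hc i) continuous_const
  have hs : IsOpen {x : EuclideanSpace ℝ (Fin n) | 0 < x (e 3) + x (e 4)} :=
    isOpen_lt continuous_const ((hc _).add (hc _))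
  exact ((hne _).union (hlt _)).inter (((hne _).union (hlt _)).inter
    (((hne _).union hs).inter ((hne _).union ((hne _).union (hlt _)))))

lemma exists_third : ∀ i0 i j : Fin 4, ∃ k : Fin 4, k ≠ i0 ∧ k ≠ i ∧ k ≠ j := by decide

lemma twoConvex_Om (e : Fin 5 ↪ Fin n) : TwoConvex (Om e) := by
  classical
  intro v _ i0 hf p hp
  obtain ⟨w, hw, hs, rfl⟩ := mem_hull v p hp
  -- coordinates
  have hcoord : ∀ (w : Fin 4 → ℝ) (k : Fin n), (∑ i, w i • v i) k = ∑ i, w i * v i k := by
    intro w k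
    simp
  -- points on the edges
  have hedge : ∀ i j : Fin 4, ∀ s : ℝ, 0 ≤ s → s ≤ 1 → ((1 - s) • v i + s • v j) ∈ Om e := by
    intro i j s h0 h1
    obtain ⟨k, hk0, hki, hkj⟩ := exists_third i0 i j
    apply hf k hk0
    apply convex_convexHull ℝ (v '' {l | l ≠ k})
    · exact subset_convexHull _ _ ⟨i, fun h => hki h.symm, rfl⟩
    · exact subset_convexHull _ _ ⟨j, fun h => hkj h.symm, rfl⟩
    · linarith
    · exact h0
    · ring
  -- walls
  have hwall1 : ∀ w : Fin 4 → ℝ, (∀ i, 0 ≤ w i) → ∑ i, w i = 1 → ∑ i, w i * v i (e 0) = 0 →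
      ∑ i, w i * v i (e 3) < 0 := by
    refine wall _ _ ?_
    intro i j s h0 h1 h
    have := (hedge i j s h0 h1).1
    simpa using this (by simpa using h)
  have hwall2 : ∀ w : Fin 4 → ℝ, (∀ i, 0 ≤ w i) → ∑ i, w i = 1 → ∑ i, w i * v i (e 1) = 0 →
      ∑ i, w i * v i (e 4) < 0 := by
    refine wall _ _ ?_
    intro i j s h0 h1 h
    have := (hedge i j s h0 h1).2.1
    simpa using this (by simpa using h)
  have hwall3 : ∀ w : Fin 4 → ℝ, (∀ i, 0 ≤ w i) → ∑ i, w i = 1 → ∑ i, w i * v i (e 2) = 0 →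
      0 < ∑ i, w i * v i (e 3) + ∑ i, w i * v i (e 4) := by
    intro w hw hs h
    have := wall (fun i => v i (e 2)) (fun i => -(v i (e 3) + v i (e 4))) (by
      intro i j s h0 h1 h
      have h3 := (hedge i j s h0 h1).2.2.1 (by simpa using h)
      simp at h3
      linarith) w hw hs h
    have e1 : ∑ i, w i * -(v i (e 3) + v i (e 4)) =
        -(∑ i, w i * v i (e 3) + ∑ i, w i * v i (e 4)) := by
      rw [← Finset.sum_add_distrib, ← Finset.sum_neg_distrib]
      apply Finset.sum_congr rfl; intro i _; ring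
    linarith
  refine ⟨?_, ?_, ?_, ?_⟩
  · rw [hcoord, hcoord]; exact hwall1 w hw hs
  · rw [hcoord, hcoord]; exact hwall2 w hw hs
  · rw [hcoord, hcoord, hcoord]; exact hwall3 w hw hs
  · rw [hcoord, hcoord, hcoord]
    intro h0 h1
    by_contra h2
    push Not at h2
    -- on the axis the third coordinate never vanishes
    have hax : ∀ w : Fin 4 → ℝ, (∀ i, 0 ≤ w i) → ∑ i, w i = 1 → ∑ i, w i * v i (e 0) = 0 →
        ∑ i, w i * v i (e 1) = 0 → ∑ i, w i * v i (e 2) ≠ 0 := by
      intro w hw hs h0 h1 h2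
      have a1 := hwall1 w hw hs h0
      have a2 := hwall2 w hw hs h1
      have a3 := hwall3 w hw hs h2
      linarith
    obtain ⟨m, hm0, hmneg, ms, ma, mb⟩ :=
      direction (fun i => v i (e 0)) (fun i => v i (e 1)) i0
    obtain ⟨t, ht, htw, j, hj, hjw⟩ := move w m i0 hw hm0 hmneg
    -- the whole segment
    have lin : ∀ (s : ℝ) (g : Fin 4 → ℝ), ∑ i, (w i + s * m i) * g i =
        ∑ i, w i * g i + s * ∑ i, m i * g i := by
      intro s g
      rw [Finset.mul_sum, ← Finset.sum_add_distrib]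
      apply Finset.sum_congr rfl; intro i _; ring
    have lin1 : ∀ (s : ℝ), ∑ i, (w i + s * m i) = 1 := by
      intro s
      rw [Finset.sum_add_distrib, ← Finset.mul_sum, ms, hs]; ring
    have hseg : ∀ s : ℝ, 0 ≤ s → s ≤ t → ∀ i, 0 ≤ w i + s * m i := by
      intro s hs0 hst i
      rcases le_total 0 (m i) with h | h
      · have := mul_nonneg hs0 h
        linarith [hw i]
      · have := htw i
        nlinarith
    have hnz : ∀ s : ℝ, 0 ≤ s → s ≤ t →
        ∑ i, w i * v i (e 2) + s * ∑ i, m i * v i (e 2) ≠ 0 := by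
      intro s hs0 hst
      rw [← lin s]
      apply hax _ (hseg s hs0 hst) (lin1 s)
      · rw [lin, h0, ma]; ring
      · rw [lin, h1, mb]; ring
    -- the end point
    have hend : ∑ i, (w i + t * m i) • v i ∈ Om e :=
      hf j hj (face_mem v _ (hseg t ht le_rfl) (lin1 t) j hjw)
    have h4 := hend.2.2.2
    rw [hcoord, hcoord, hcoord, lin, lin, lin] at h4
    have h5 := h4 (by rw [h0, ma]; ring) (by rw [h1, mb]; ring)
    set A := ∑ i, w i * v i (e 2) with hA
    set B := ∑ i, m i * v i (e 2) with hB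
    have hA0 : 0 < A := lt_of_le_of_ne h2 (by
      have := hnz 0 le_rfl ht
      intro hc
      apply this
      rw [← hc]; ring)
    have hB0 : B < 0 := by
      by_contra hc
      push Not at hc
      have := mul_nonneg ht hc
      linarith
    refine hnz (A / (-B)) (div_nonneg hA0.le (by linarith)) ?_ ?_
    · rw [div_le_iff₀ (by linarith)]
      nlinarith
    · have : B ≠ 0 := hB0.ne
      field_simp
      ring

/-- the standard basis vectors in the chosen coordinates -/
noncomputable def bv (e : Fin 5 ↪ Fin n) (k : Fin 5) : EuclideanSpace ℝ (Fin n) :=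
  EuclideanSpace.single (e k) (1 : ℝ)

lemma bv_apply (e : Fin 5 ↪ Fin n) (k l : Fin 5) : bv e k (e l) = if l = k then 1 else 0 := by
  simp [bv]

/-- the factor in the first deformation -/
noncomputable def sg (e : Fin 5 ↪ Fin n) (x : EuclideanSpace ℝ (Fin n)) : ℝ :=
  (1 + |x (e 3)| + |x (e 4)|) / (|x (e 0)| + |x (e 1)| + max 0 (-x (e 2)))

noncomputable def g1 (e : Fin 5 ↪ Fin n) (x : EuclideanSpace ℝ (Fin n)) :
    EuclideanSpace ℝ (Fin n) :=
  x + (sg e x * |x (e 0)|) • bv e 3 + (sg e x * |x (e 1)|) • bv e 4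

noncomputable def g2 (e : Fin 5 ↪ Fin n) (x : EuclideanSpace ℝ (Fin n)) :
    EuclideanSpace ℝ (Fin n) :=
  x - (1 + |x (e 2)|) • bv e 2

noncomputable def g3 (e : Fin 5 ↪ Fin n) (x : EuclideanSpace ℝ (Fin n)) :
    EuclideanSpace ℝ (Fin n) :=
  x - (1 + |x (e 3)|) • bv e 3 - (1 + |x (e 4)|) • bv e 4

noncomputable def cc (e : Fin 5 ↪ Fin n) : EuclideanSpace ℝ (Fin n) :=
  - bv e 2 - bv e 3 - bv e 4

lemma sg_nonneg (e : Fin 5 ↪ Fin n) (x : EuclideanSpace ℝ (Fin n)) : 0 ≤ sg e x := by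
  unfold sg
  have := le_max_left 0 (-x (e 2))
  positivity

lemma den_pos (e : Fin 5 ↪ Fin n) (x : EuclideanSpace ℝ (Fin n)) (hx : x ∈ Om e) :
    0 < |x (e 0)| + |x (e 1)| + max 0 (-x (e 2)) := by
  have h0 := abs_nonneg (x (e 0))
  have h1 := abs_nonneg (x (e 1))
  have h2 := le_max_left 0 (-x (e 2))
  have h3 := le_max_right 0 (-x (e 2))
  by_cases k0 : x (e 0) = 0
  · by_cases k1 : x (e 1) = 0
    · have := hx.2.2.2 k0 k1
      linarith
    · have := abs_pos.mpr k1
      linarith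
  · have := abs_pos.mpr k0
    linarith

lemma g1_path (e : Fin 5 ↪ Fin n) (x : EuclideanSpace ℝ (Fin n)) (hx : x ∈ Om e) (s : ℝ)
    (h0 : 0 ≤ s) (_h1 : s ≤ 1) : x + s • (g1 e x - x) ∈ Om e := by
  have c0 : (x + s • (g1 e x - x)) (e 0) = x (e 0) := by
    simp [g1, bv_apply]
  have c1 : (x + s • (g1 e x - x)) (e 1) = x (e 1) := by
    simp [g1, bv_apply]
  have c2 : (x + s • (g1 e x - x)) (e 2) = x (e 2) := by
    simp [g1, bv_apply]
  have c3 : (x + s • (g1 e x - x)) (e 3) = x (e 3) + s * (sg e x * |x (e 0)|) := by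
    simp [g1, bv_apply]
  have c4 : (x + s • (g1 e x - x)) (e 4) = x (e 4) + s * (sg e x * |x (e 1)|) := by
    simp [g1, bv_apply]
  have hs := sg_nonneg e x
  refine ⟨?_, ?_, ?_, ?_⟩
  · rw [c0, c3]
    intro h
    have := hx.1 h
    simpa [h] using this
  · rw [c1, c4]
    intro h
    have := hx.2.1 h
    simpa [h] using this
  · rw [c2, c3, c4]
    intro h
    have := hx.2.2.1 h
    have p0 : 0 ≤ s * (sg e x * |x (e 0)|) := by positivity
    have p1 : 0 ≤ s * (sg e x * |x (e 1)|) := by positivity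
    linarith
  · rw [c0, c1, c2]
    exact hx.2.2.2

lemma g1_prop (e : Fin 5 ↪ Fin n) (x : EuclideanSpace ℝ (Fin n)) (hx : x ∈ Om e)
    (h : 0 ≤ g1 e x (e 2)) : 0 < g1 e x (e 3) + g1 e x (e 4) := by
  have c2 : g1 e x (e 2) = x (e 2) := by simp [g1, bv_apply]
  have c3 : g1 e x (e 3) = x (e 3) + sg e x * |x (e 0)| := by simp [g1, bv_apply]
  have c4 : g1 e x (e 4) = x (e 4) + sg e x * |x (e 1)| := by simp [g1, bv_apply]
  rw [c2] at h
  have hd := den_pos e x hx
  have hm : max 0 (-x (e 2)) = 0 := max_eq_left (by linarith)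
  have key : sg e x * (|x (e 0)| + |x (e 1)|) = 1 + |x (e 3)| + |x (e 4)| := by
    unfold sg
    rw [hm] at hd ⊢
    rw [add_zero] at hd ⊢
    field_simp
  rw [c3, c4]
  have h3 := neg_abs_le (x (e 3))
  have h4 := neg_abs_le (x (e 4))
  nlinarith

lemma g2_path (e : Fin 5 ↪ Fin n) (x : EuclideanSpace ℝ (Fin n)) (hx : x ∈ Om e)
    (hx2 : 0 ≤ x (e 2) → 0 < x (e 3) + x (e 4)) (s : ℝ)
    (h0 : 0 ≤ s) (_h1 : s ≤ 1) : x + s • (g2 e x - x) ∈ Om e := by
  have c0 : (x + s • (g2 e x - x)) (e 0) = x (e 0) := by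
    simp [g2, bv_apply]
  have c1 : (x + s • (g2 e x - x)) (e 1) = x (e 1) := by
    simp [g2, bv_apply]
  have c2 : (x + s • (g2 e x - x)) (e 2) = x (e 2) - s * (1 + |x (e 2)|) := by
    simp [g2, bv_apply]
    ring
  have c3 : (x + s • (g2 e x - x)) (e 3) = x (e 3) := by
    simp [g2, bv_apply]
  have c4 : (x + s • (g2 e x - x)) (e 4) = x (e 4) := by
    simp [g2, bv_apply]
  have hs : 0 ≤ s * (1 + |x (e 2)|) := by positivity
  refine ⟨?_, ?_, ?_, ?_⟩
  · rw [c0, c3]
    exact hx.1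
  · rw [c1, c4]
    exact hx.2.1
  · rw [c2, c3, c4]
    intro h
    exact hx2 (by linarith)
  · rw [c0, c1, c2]
    intro h h'
    have := hx.2.2.2 h h'
    linarith

lemma g2_prop (e : Fin 5 ↪ Fin n) (x : EuclideanSpace ℝ (Fin n)) : g2 e x (e 2) < 0 := by
  have c2 : g2 e x (e 2) = x (e 2) - (1 + |x (e 2)|) := by simp [g2, bv_apply]
  rw [c2]
  have := le_abs_self (x (e 2))
  linarith

lemma g3_path (e : Fin 5 ↪ Fin n) (x : EuclideanSpace ℝ (Fin n)) (hx : x ∈ Om e)
    (hx2 : x (e 2) < 0) (s : ℝ)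
    (h0 : 0 ≤ s) (_h1 : s ≤ 1) : x + s • (g3 e x - x) ∈ Om e := by
  have c0 : (x + s • (g3 e x - x)) (e 0) = x (e 0) := by
    simp [g3, bv_apply]
  have c1 : (x + s • (g3 e x - x)) (e 1) = x (e 1) := by
    simp [g3, bv_apply]
  have c2 : (x + s • (g3 e x - x)) (e 2) = x (e 2) := by
    simp [g3, bv_apply]
  have c3 : (x + s • (g3 e x - x)) (e 3) = x (e 3) - s * (1 + |x (e 3)|) := by
    simp [g3, bv_apply]
    ring
  have c4 : (x + s • (g3 e x - x)) (e 4) = x (e 4) - s * (1 + |x (e 4)|) := by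
    simp [g3, bv_apply]
    ring
  have hs3 : 0 ≤ s * (1 + |x (e 3)|) := by positivity
  have hs4 : 0 ≤ s * (1 + |x (e 4)|) := by positivity
  refine ⟨?_, ?_, ?_, ?_⟩
  · rw [c0, c3]
    intro h
    have := hx.1 h
    linarith
  · rw [c1, c4]
    intro h
    have := hx.2.1 h
    linarith
  · rw [c2]
    intro h
    linarith
  · rw [c0, c1, c2]
    intro _ _
    exact hx2

lemma g3_prop (e : Fin 5 ↪ Fin n) (x : EuclideanSpace ℝ (Fin n)) (hx2 : x (e 2) < 0) :
    g3 e x (e 2) < 0 ∧ g3 e x (e 3) < 0 ∧ g3 e x (e 4) < 0 := by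
  have c2 : g3 e x (e 2) = x (e 2) := by simp [g3, bv_apply]
  have c3 : g3 e x (e 3) = x (e 3) - (1 + |x (e 3)|) := by simp [g3, bv_apply]
  have c4 : g3 e x (e 4) = x (e 4) - (1 + |x (e 4)|) := by simp [g3, bv_apply]
  rw [c2, c3, c4]
  have h3 := le_abs_self (x (e 3))
  have h4 := le_abs_self (x (e 4))
  refine ⟨hx2, ?_, ?_⟩ <;> linarith

lemma last_path (e : Fin 5 ↪ Fin n) (x : EuclideanSpace ℝ (Fin n))
    (hx : x (e 2) < 0 ∧ x (e 3) < 0 ∧ x (e 4) < 0) (s : ℝ)
    (h0 : 0 ≤ s) (h1 : s ≤ 1) : x + s • (cc e - x) ∈ Om e := by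
  obtain ⟨h2, h3, h4⟩ := hx
  have c2 : (x + s • (cc e - x)) (e 2) = x (e 2) + s * (-1 - x (e 2)) := by
    simp [cc, bv_apply]
  have c3 : (x + s • (cc e - x)) (e 3) = x (e 3) + s * (-1 - x (e 3)) := by
    simp [cc, bv_apply]
  have c4 : (x + s • (cc e - x)) (e 4) = x (e 4) + s * (-1 - x (e 4)) := by
    simp [cc, bv_apply]
  have key : ∀ a : ℝ, a < 0 → a + s * (-1 - a) < 0 := by
    intro a ha
    rcases eq_or_lt_of_le h0 with h | h
    · rw [← h]; linarith
    · nlinarith
  have k2 := key _ h2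
  have k3 := key _ h3
  have k4 := key _ h4
  refine ⟨?_, ?_, ?_, ?_⟩
  · rw [c3]; intro _; exact k3
  · rw [c4]; intro _; exact k4
  · rw [c2]; intro h; linarith
  · rw [c2]; intro _ _; exact k2

lemma homot {X E : Type*} [TopologicalSpace X] [AddCommGroup E] [TopologicalSpace E]
    [IsTopologicalAddGroup E] [Module ℝ E] [ContinuousSMul ℝ E] {S : Set E} (F G : C(X, S))
    (h : ∀ x, ∀ s : ℝ, 0 ≤ s → s ≤ 1 → (F x : E) + s • ((G x : E) - F x) ∈ S) :
    F.Homotopic G :=
  ⟨{ toFun := fun p => ⟨(F p.2 : E) + (p.1 : ℝ) • ((G p.2 : E) - F p.2), h _ _ p.1.2.1 p.1.2.2⟩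
     continuous_toFun := by fun_prop
     map_zero_left := by intro x; simp
     map_one_left := by intro x; simp }⟩

lemma cont_sg (e : Fin 5 ↪ Fin n) : Continuous fun x : Om e => sg e (x : EuclideanSpace ℝ (Fin n)) := by
  unfold sg
  apply Continuous.div
  · fun_prop
  · fun_prop
  · intro x
    exact (den_pos e x x.2).ne'

lemma cont_g1 (e : Fin 5 ↪ Fin n) : Continuous fun x : Om e => g1 e (x : EuclideanSpace ℝ (Fin n)) := by
  unfold g1
  have := cont_sg e
  fun_prop

lemma cont_g2 (e : Fin 5 ↪ Fin n) : Continuous (g2 e) := by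
  unfold g2
  fun_prop

lemma cont_g3 (e : Fin 5 ↪ Fin n) : Continuous (g3 e) := by
  unfold g3
  fun_prop

lemma contractible_Om (e : Fin 5 ↪ Fin n) : ContractibleSpace (Om e) := by
  rw [contractible_iff_id_nullhomotopic]
  have m1 : ∀ x : Om e, g1 e x ∈ Om e := by
    intro x
    have := g1_path e x x.2 1 zero_le_one le_rfl
    simpa using this
  have m2 : ∀ x : Om e, g2 e (g1 e x) ∈ Om e := by
    intro x
    have := g2_path e (g1 e x) (m1 x) (g1_prop e x x.2) 1 zero_le_one le_rfl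
    simpa using this
  have m3 : ∀ x : Om e, g3 e (g2 e (g1 e x)) ∈ Om e := by
    intro x
    have := g3_path e (g2 e (g1 e x)) (m2 x) (g2_prop e _) 1 zero_le_one le_rfl
    simpa using this
  have m4 : cc e ∈ Om e := by
    have := last_path e (cc e) (by simp [cc, bv_apply]) 0 le_rfl zero_le_one
    simpa using this
  let F1 : C(Om e, Om e) := ⟨fun x => ⟨g1 e x, m1 x⟩, (cont_g1 e).subtype_mk _⟩
  let F2 : C(Om e, Om e) := ⟨fun x => ⟨g2 e (g1 e x), m2 x⟩,
    ((cont_g2 e).comp (cont_g1 e)).subtype_mk _⟩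
  let F3 : C(Om e, Om e) := ⟨fun x => ⟨g3 e (g2 e (g1 e x)), m3 x⟩,
    ((cont_g3 e).comp ((cont_g2 e).comp (cont_g1 e))).subtype_mk _⟩
  refine ⟨⟨cc e, m4⟩, ?_⟩
  have h1 : (ContinuousMap.id (Om e)).Homotopic F1 :=
    homot _ _ fun x s h0 h1 => g1_path e x x.2 s h0 h1
  have h2 : F1.Homotopic F2 :=
    homot _ _ fun x s h0 h1 => g2_path e (g1 e x) (m1 x) (g1_prop e x x.2) s h0 h1
  have h3 : F2.Homotopic F3 :=
    homot _ _ fun x s h0 h1 => g3_path e (g2 e (g1 e x)) (m2 x) (g2_prop e _) s h0 h1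
  have h4 : F3.Homotopic (ContinuousMap.const (Om e) ⟨cc e, m4⟩) :=
    homot _ _ fun x s h0 h1 => last_path e _ (g3_prop e _ (g2_prop e _)) s h0 h1
  exact h1.trans (h2.trans (h3.trans h4))

/-- the linear part of the parametrisation of the plane -/
noncomputable def LP (e : Fin 5 ↪ Fin n) : ℂ →ₗ[ℝ] EuclideanSpace ℝ (Fin n) where
  toFun z := z.re • bv e 0 + z.im • bv e 1
  map_add' z w := by simp; module
  map_smul' c z := by simp; module

/-- the base point of the plane -/
noncomputable def p0 (e : Fin 5 ↪ Fin n) : EuclideanSpace ℝ (Fin n) := bv e 2 - bv e 3 - bv e 4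

/-- the plane `x₃ = 1, y₁ = y₂ = -1` -/
noncomputable def Pl (e : Fin 5 ↪ Fin n) : AffineSubspace ℝ (EuclideanSpace ℝ (Fin n)) :=
  AffineSubspace.mk' (p0 e) (LinearMap.range (LP e))

noncomputable def par (e : Fin 5 ↪ Fin n) (z : ℂ) : EuclideanSpace ℝ (Fin n) := LP e z + p0 e

noncomputable def inv (e : Fin 5 ↪ Fin n) (x : EuclideanSpace ℝ (Fin n)) : ℂ := ⟨x (e 0), x (e 1)⟩

lemma inv_par (e : Fin 5 ↪ Fin n) : Function.LeftInverse (inv e) (par e) := by
  intro z
  apply Complex.ext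
  · simp [inv, par, LP, p0, bv_apply]
  · simp [inv, par, LP, p0, bv_apply]

lemma LP_inj (e : Fin 5 ↪ Fin n) : Function.Injective (LP e) := by
  intro z w h
  apply (inv_par e).injective
  simp [par, h]

lemma finrank_Pl (e : Fin 5 ↪ Fin n) : Module.finrank ℝ (Pl e).direction = 2 := by
  rw [Pl, AffineSubspace.direction_mk', LinearMap.finrank_range_of_inj (LP_inj e),
    Complex.finrank_real_complex]

lemma emb (e : Fin 5 ↪ Fin n) : Topology.IsEmbedding (par e) := by
  refine (inv_par e).isEmbedding ?_ ?_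
  · have : inv e = fun x => ((x (e 0) : ℝ) : ℂ) + ((x (e 1) : ℝ) : ℂ) * Complex.I := by
      funext x
      apply Complex.ext <;> simp [inv]
    rw [this]
    fun_prop
  · have : par e = fun z => z.re • bv e 0 + z.im • bv e 1 + p0 e := rfl
    rw [this]
    have h1 := Complex.continuous_re
    have h2 := Complex.continuous_im
    fun_prop

lemma section_eq (e : Fin 5 ↪ Fin n) :
    Om e ∩ (Pl e : Set (EuclideanSpace ℝ (Fin n))) = par e '' {(0 : ℂ)}ᶜ := by
  have hmem : ∀ x, x ∈ (Pl e : Set (EuclideanSpace ℝ (Fin n))) ↔ ∃ z, par e z = x := by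
    intro x
    rw [SetLike.mem_coe, Pl, AffineSubspace.mem_mk', LinearMap.mem_range]
    constructor
    · rintro ⟨z, hz⟩
      exact ⟨z, by rw [par, hz]; simp⟩
    · rintro ⟨z, rfl⟩
      exact ⟨z, by simp [par]⟩
  have hco : ∀ z, par e z (e 0) = z.re ∧ par e z (e 1) = z.im ∧ par e z (e 2) = 1 ∧
      par e z (e 3) = -1 ∧ par e z (e 4) = -1 := by
    intro z
    refine ⟨?_, ?_, ?_, ?_, ?_⟩ <;> simp [par, LP, p0, bv_apply]
  ext x
  constructor
  · rintro ⟨hx, hP⟩
    obtain ⟨z, rfl⟩ := (hmem x).mp hP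
    refine ⟨z, ?_, rfl⟩
    rintro (rfl : z = 0)
    obtain ⟨a0, a1, a2, _, _⟩ := hco 0
    have := hx.2.2.2 (by rw [a0]; rfl) (by rw [a1]; rfl)
    rw [a2] at this
    linarith
  · rintro ⟨z, hz, rfl⟩
    refine ⟨?_, (hmem _).mpr ⟨z, rfl⟩⟩
    obtain ⟨a0, a1, a2, a3, a4⟩ := hco z
    refine ⟨?_, ?_, ?_, ?_⟩
    · rw [a3]; intro _; norm_num
    · rw [a4]; intro _; norm_num
    · rw [a2]; intro h; norm_num at h
    · rw [a0, a1]
      intro h1 h2
      exfalso
      apply hz
      exact Complex.ext h1 h2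

end Example

/-- the punctured plane is not simply connected -/
lemma not_sc : ¬ IsSimplyConnected ({(0 : ℂ)}ᶜ : Set ℂ) := by
  intro h
  obtain ⟨f, hf, hexp⟩ := Complex.exists_continuousOn_eqOn_exp_comp h isOpen_compl_singleton
    (g := id) continuousOn_id (by simp)
  -- the function `f (exp (i t)) - i t` takes values in `2 π i ℤ`
  let u : ℝ → ℂ := fun t => Complex.exp (t * Complex.I)
  have hu : Continuous u := by fun_prop
  have hu0 : ∀ t, u t ∈ ({(0 : ℂ)}ᶜ : Set ℂ) := fun t => Complex.exp_ne_zero _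
  let g : ℝ → ℂ := fun t => f (u t) - t * Complex.I
  have hg : Continuous g := by
    have : Continuous fun t => f (u t) := by
      rw [← continuousOn_univ]
      exact hf.comp hu.continuousOn fun t _ => hu0 t
    exact this.sub (by fun_prop)
  have hval : ∀ t, ∃ k : ℤ, g t = k * (2 * Real.pi * Complex.I) := by
    intro t
    have h1 : Complex.exp (f (u t)) = u t := hexp (hu0 t)
    have h2 : Complex.exp (g t) = 1 := by
      simp only [g]
      rw [Complex.exp_sub, h1]
      exact div_self (Complex.exp_ne_zero _)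
    exact Complex.exp_eq_one_iff.mp h2
  -- hence its imaginary part divided by `2 π` is a continuous integer valued function
  let q : ℝ → ℝ := fun t => (g t).im / (2 * Real.pi)
  have hq : Continuous q := by
    have := Complex.continuous_im.comp hg
    exact this.div_const _
  have hqv : ∀ t, ∃ k : ℤ, q t = k := by
    intro t
    obtain ⟨k, hk⟩ := hval t
    refine ⟨k, ?_⟩
    simp only [q]
    rw [hk]
    simp
  have hconst : q 0 = q (2 * Real.pi) := by
    have hpre : IsPreconnected (Set.range q) := isPreconnected_range hq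
    by_contra hne
    obtain ⟨a, ha⟩ := hqv 0
    obtain ⟨b, hb⟩ := hqv (2 * Real.pi)
    have hmid : ∃ t, q t = ((min a b : ℤ) : ℝ) + 1 / 2 := by
      have hab : a ≠ b := by
        rintro rfl
        exact hne (ha.trans hb.symm)
      have hord := hpre.ordConnected
      rcases lt_or_gt_of_ne hab with h | h
      · have h' : (a : ℝ) + 1 ≤ b := by exact_mod_cast h
        apply hord.out (Set.mem_range_self 0) (Set.mem_range_self (2 * Real.pi))
        rw [min_eq_left h.le, ha, hb]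
        constructor <;> linarith
      · have h' : (b : ℝ) + 1 ≤ a := by exact_mod_cast h
        apply hord.out (Set.mem_range_self (2 * Real.pi)) (Set.mem_range_self 0)
        rw [min_eq_right h.le, ha, hb]
        constructor <;> linarith
    obtain ⟨t, ht⟩ := hmid
    obtain ⟨k, hk⟩ := hqv t
    rw [hk] at ht
    have h2 : (2 : ℝ) * k = 2 * ((min a b : ℤ) : ℝ) + 1 := by rw [ht]; ring
    have h3 : 2 * k = 2 * (min a b) + 1 := by exact_mod_cast h2
    omega
  have e0 : u 0 = 1 := by simp [u]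
  have e1 : u (2 * Real.pi) = 1 := by
    simp only [u]
    push_cast
    exact Complex.exp_two_pi_mul_I
  simp only [q, g] at hconst
  rw [e0, e1] at hconst
  have hpi := Real.pi_pos
  simp at hconst
  field_simp at hconst
  linarith

/-- For every `n ≥ 5` there are an open two-convex contractible (in particular simply connected)
set `Ω ⊆ ℝⁿ` and an affine 2-plane `P` such that `Ω ∩ P` is connected and its (unique) connected
component is not simply connected. -/
theorem result (n : ℕ) (hn : 5 ≤ n) :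
    ∃ (Ω : Set (EuclideanSpace ℝ (Fin n))) (P : AffineSubspace ℝ (EuclideanSpace ℝ (Fin n))),
      IsOpen Ω ∧ TwoConvex Ω ∧ ContractibleSpace Ω ∧ IsSimplyConnected Ω ∧
      (P : Set (EuclideanSpace ℝ (Fin n))).Nonempty ∧ Module.finrank ℝ P.direction = 2 ∧
      IsConnected (Ω ∩ (P : Set (EuclideanSpace ℝ (Fin n)))) ∧
      ∀ p ∈ Ω ∩ (P : Set (EuclideanSpace ℝ (Fin n))),
        ¬ IsSimplyConnected
          (connectedComponentIn (Ω ∩ (P : Set (EuclideanSpace ℝ (Fin n)))) p) := by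
  let e : Fin 5 ↪ Fin n := Fin.castLEEmb hn
  have hc : IsConnected (Om e ∩ (Pl e : Set (EuclideanSpace ℝ (Fin n)))) := by
    rw [section_eq]
    refine IsConnected.image ?_ _ (emb e).continuous.continuousOn
    apply isConnected_compl_singleton_of_one_lt_rank
    rw [Complex.rank_real_complex]
    norm_num
  refine ⟨Om e, Pl e, isOpen_Om e, twoConvex_Om e, contractible_Om e, ?_, ?_, finrank_Pl e, hc, ?_⟩
  · have := contractible_Om e
    exact SimplyConnectedSpace.ofContractible _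
  · exact hc.nonempty.mono Set.inter_subset_right
  · intro p hp
    rw [hc.isPreconnected.connectedComponentIn hp, section_eq, (emb e).isSimplyConnected_image]
    exact not_sc

end Pool.Agent.Results.MP_a4ef96_gt.PlanarSections
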